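import Pool.Agent.H33R3.Bom.Stmts

/-! TASK H1 of the project H33-BOM: bound for the logarithmic derivative of `Y`. -/

set_option autoImplicit false

namespace Pool.Agent.H121R3.Bom

open Complex Metric Set Filter Topology Pool.Agent.H33R3.Bom

/-- Taylor coefficients -/
noncomputable def tc (A : ℂ → ℂ) (k : ℕ) : ℂ := iteratedDeriv k A 0 / (k.factorial : ℂ)

theorem hasSum_tc {A : ℂ → ℂ} (hA : DifferentiableOn ℂ A (ball 0 1)) {z : ℂ}
    (hz : z ∈ ball (0 : ℂ) 1) : HasSum (fun k : ℕ => tc A k * z ^ k) (A z) := by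
  have h := Complex.hasSum_taylorSeries_on_ball hA hz
  have h2 : (fun n : ℕ => (n.factorial : ℂ)⁻¹ • (z - 0) ^ n • iteratedDeriv n A 0) =
      fun k => tc A k * z ^ k := by
    funext k
    simp only [tc, smul_eq_mul, div_eq_mul_inv, sub_zero]
    ring
  rwa [h2] at h

theorem tc_even {A : ℂ → ℂ} (hodd : ∀ z ∈ ball (0 : ℂ) 1, A (-z) = -A z) (k : ℕ)
    (hk : ¬ Odd k) : tc A k = 0 := by
  have h1 := iteratedDeriv_comp_neg k A (0 : ℂ)
  have h2 : iteratedDeriv k (fun x => A (-x)) 0 = iteratedDeriv k (fun x => -A x) 0 := by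
    apply Filter.EventuallyEq.iteratedDeriv_eq
    filter_upwards [isOpen_ball.mem_nhds (mem_ball_self (zero_lt_one))] with x hx
    exact hodd x hx
  have h3 : iteratedDeriv k (fun x => -A x) 0 = -(iteratedDeriv k A 0) := by
    simp
  have hev : Even k := Nat.not_odd_iff_even.1 hk
  rw [h2, h3, neg_zero, hev.neg_one_pow, one_smul] at h1
  have h4 : iteratedDeriv k A 0 = 0 := by
    have h5 : (2 : ℂ) * iteratedDeriv k A 0 = 0 := by linear_combination -h1
    simpa using h5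
  simp [tc, h4]

/-- the odd logarithmic series -/
noncomputable def ee (x : ℝ) (k : ℕ) : ℝ := if Odd k then 2 * (1 / (k : ℝ)) * x ^ k else 0

theorem hasSum_ee {x : ℝ} (hx : |x| < 1) : HasSum (ee x) (Real.log (1 + x) - Real.log (1 - x)) := by
  have h := Real.hasSum_log_sub_log_of_abs_lt_one hx
  have hinj : Function.Injective (fun j : ℕ => 2 * j + 1) := fun a b hab => by
    simp only [] at hab; omega
  rw [← hinj.hasSum_iff]
  · convert h using 1
    funext j
    simp [ee]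
  · intro k hk
    simp only [ee]
    rw [if_neg]
    rintro ⟨m, rfl⟩
    exact hk ⟨m, rfl⟩

theorem norm_A_le (hC : TaskC) {Y : ℂ → ℂ} (hY : IsG Y) {ζ : ℂ} (hζ0 : ζ ≠ 0) (hζ : ‖ζ‖ < 1)
    {A : ℂ → ℂ} (hA : LogFor Y ζ A) :
    ‖A ζ‖ ≤ Real.log (1 + ‖ζ‖ ^ 2) - Real.log (1 - ‖ζ‖ ^ 2) := by
  set x : ℝ := ‖ζ‖ ^ 2 with hx
  have hx0 : 0 ≤ x := by positivity
  have hx1 : x < 1 := by
    rw [hx]
    have := norm_nonneg ζ
    nlinarith
  have habs : |x| < 1 := by rwa [abs_of_nonneg hx0]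
  set L : ℝ := Real.log (1 + x) - Real.log (1 - x) with hL
  have hee := hasSum_ee habs
  have hee0 : ∀ k, 0 ≤ ee x k := by
    intro k
    unfold ee
    split_ifs
    · positivity
    · exact le_rfl
  have hpart : ∀ N : ℕ, ∑ k ∈ Finset.range N, ee x k ≤ L := fun N =>
    sum_le_hasSum _ (fun k _ => hee0 k) hee
  have hL0 : 0 ≤ L := by simpa using hpart 0
  -- the Grunsky inequality
  have hG : ∀ N : ℕ, ∑ k ∈ Finset.range N, (k : ℝ) * ‖tc A k‖ ^ 2 ≤ 2 * L := by
    intro N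
    have h1 := hC Y hY ζ ζ A A hζ0 hζ0 hζ hζ hA hA 0 1 0 (tc A) (by
      intro z hz
      simpa using hasSum_tc hA.diff hz) N
    refine h1.trans (le_of_eq ?_)
    have h2 : (fun k : ℕ => (k : ℝ) * ‖dd 0 1 0 ζ ζ k‖ ^ 2) = fun k => 2 * ee x k := by
      funext k
      simp only [dd, ee, ite_self, zero_add, one_mul, zero_mul, add_zero]
      split_ifs with hk
      · have hk0 : (k : ℝ) ≠ 0 := by
          rintro h0
          have : k = 0 := by exact_mod_cast h0
          subst this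
          exact absurd hk (by decide)
        rw [norm_mul, norm_div, norm_pow, Complex.norm_natCast, Complex.norm_ofNat, hx]
        field_simp
        ring
      · simp
    rw [h2]
    exact (hee.mul_left 2).tsum_eq
  -- partial sums
  have hS : ∀ N : ℕ, ∑ k ∈ Finset.range N, ‖tc A k‖ * ‖ζ‖ ^ k ≤ L := by
    intro N
    have h1 : ∑ k ∈ Finset.range N, ‖tc A k‖ * ‖ζ‖ ^ k =
        ∑ k ∈ Finset.range N, (Real.sqrt k * ‖tc A k‖) *
          (if Odd k then ‖ζ‖ ^ k / Real.sqrt k else 0) := by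
      refine Finset.sum_congr rfl fun k _ => ?_
      split_ifs with hk
      · have hk0 : (0 : ℝ) < k := by
          have : 0 < k := hk.pos
          exact_mod_cast this
        have hs : Real.sqrt k ≠ 0 := (Real.sqrt_pos.2 hk0).ne'
        field_simp
      · rw [tc_even hA.odd k hk]
        simp
    have h2 : (∑ k ∈ Finset.range N, ‖tc A k‖ * ‖ζ‖ ^ k) ^ 2 ≤ L ^ 2 := by
      rw [h1]
      refine (Finset.sum_mul_sq_le_sq_mul_sq _ _ _).trans ?_
      have h3 : ∑ k ∈ Finset.range N, (Real.sqrt k * ‖tc A k‖) ^ 2 ≤ 2 * L := by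
        refine le_trans (le_of_eq ?_) (hG N)
        refine Finset.sum_congr rfl fun k _ => ?_
        rw [mul_pow, Real.sq_sqrt (Nat.cast_nonneg k)]
      have h4 : ∑ k ∈ Finset.range N, (if Odd k then ‖ζ‖ ^ k / Real.sqrt k else 0) ^ 2 ≤ L / 2 := by
        have h5 : ∑ k ∈ Finset.range N, (if Odd k then ‖ζ‖ ^ k / Real.sqrt k else 0) ^ 2 =
            (∑ k ∈ Finset.range N, ee x k) / 2 := by
          rw [Finset.sum_div]
          refine Finset.sum_congr rfl fun k _ => ?_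
          simp only [ee]
          split_ifs with hk
          · rw [div_pow, Real.sq_sqrt (Nat.cast_nonneg k), hx, ← pow_mul, ← pow_mul, mul_comm k 2]
            ring
          · simp
        rw [h5]
        have := hpart N
        linarith
      have h6 : (0 : ℝ) ≤ ∑ k ∈ Finset.range N, (if Odd k then ‖ζ‖ ^ k / Real.sqrt k else 0) ^ 2 :=
        Finset.sum_nonneg fun k _ => sq_nonneg _
      calc _ ≤ (2 * L) * (L / 2) := mul_le_mul h3 h4 h6 (by linarith)
        _ = L ^ 2 := by ring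
    exact le_of_sq_le_sq h2 hL0
  have hlim := (hasSum_tc hA.diff (z := ζ) (by simpa using hζ)).tendsto_sum_nat
  refine le_of_tendsto hlim.norm (Eventually.of_forall fun N => ?_)
  refine (norm_sum_le _ _).trans ?_
  simpa [norm_mul, norm_pow] using hS N

theorem taskH1 : TaskH1 := by
  intro hC hD Y hY ζ hζ
  by_cases hζ0 : ζ = 0
  · subst hζ0
    simp
  have hr : ‖ζ‖ < 1 := by simpa using hζ
  obtain ⟨A, hA⟩ := hD Y hY ζ hζ hζ0
  have hYζ : Y ζ ≠ 0 := hY.ne ζ hζ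
  have hdY : HasDerivAt Y (deriv Y ζ) ζ :=
    (hY.diff.differentiableAt (isOpen_ball.mem_nhds hζ)).hasDerivAt
  have hdA : HasDerivAt A (deriv A ζ) ζ :=
    (hA.diff.differentiableAt (isOpen_ball.mem_nhds hζ)).hasDerivAt
  -- the derivatives of both sides at `ζ`
  have ha : HasDerivAt (fun z => Y ζ * z - Y z * ζ) (Y ζ * 1 - deriv Y ζ * ζ) ζ :=
    ((hasDerivAt_id ζ).const_mul (Y ζ)).sub (hdY.mul_const ζ)
  have hb : HasDerivAt (fun z : ℂ => z + ζ) 1 ζ := (hasDerivAt_id ζ).add_const ζ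
  have hF1 := (ha.mul hb).mul hdA.cexp
  have ha2 : HasDerivAt (fun z => Y ζ * z + Y z * ζ) (Y ζ * 1 + deriv Y ζ * ζ) ζ :=
    ((hasDerivAt_id ζ).const_mul (Y ζ)).add (hdY.mul_const ζ)
  have hb2 : HasDerivAt (fun z : ℂ => z - ζ) 1 ζ := (hasDerivAt_id ζ).sub_const ζ
  have hF2 := ha2.mul hb2
  have hev : ((fun z => Y ζ * z + Y z * ζ) * fun z : ℂ => z - ζ) =ᶠ[𝓝 ζ]
      (((fun z => Y ζ * z - Y z * ζ) * fun z => z + ζ) * fun x => cexp (A x)) := by
    filter_upwards [isOpen_ball.mem_nhds hζ] with z hz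
    have := hA.eq z hz
    simp only [Pi.mul_apply]
    exact this.symm
  have heq := hF1.congr_of_eventuallyEq hev
  have hd := heq.unique hF2
  simp only [Pi.mul_apply] at hd
  have hd' : (1 - ζ * deriv Y ζ / Y ζ) * exp (A ζ) = 1 := by
    have h2 : (2 * ζ * Y ζ) ≠ 0 := by
      simp [hζ0, hYζ]
    apply mul_left_cancel₀ h2
    have h3 : 2 * ζ * Y ζ * ((1 - ζ * deriv Y ζ / Y ζ) * cexp (A ζ)) =
        2 * ζ * (Y ζ - ζ * deriv Y ζ) * cexp (A ζ) := by
      field_simp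
    rw [h3]
    linear_combination hd
  have hn : ‖1 - ζ * deriv Y ζ / Y ζ‖ ≤ (1 + ‖ζ‖ ^ 2) / (1 - ‖ζ‖ ^ 2) := by
    have h1 : (1 - ζ * deriv Y ζ / Y ζ) = exp (-A ζ) := by
      rw [Complex.exp_neg]
      exact eq_inv_of_mul_eq_one_left hd'
    rw [h1, Complex.norm_exp]
    have h2 : (-A ζ).re ≤ Real.log (1 + ‖ζ‖ ^ 2) - Real.log (1 - ‖ζ‖ ^ 2) := by
      refine (Complex.re_le_norm _).trans ?_
      rw [norm_neg]
      exact norm_A_le hC hY hζ0 hr hA
    have hx1 : 0 < 1 - ‖ζ‖ ^ 2 := by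
      have := norm_nonneg ζ
      nlinarith
    refine (Real.exp_le_exp.2 h2).trans (le_of_eq ?_)
    rw [Real.exp_sub, Real.exp_log (by positivity), Real.exp_log hx1]
  have hre : (1 - ζ * deriv Y ζ / Y ζ).re ≤ (1 + ‖ζ‖ ^ 2) / (1 - ‖ζ‖ ^ 2) :=
    (Complex.re_le_norm _).trans hn
  rw [Complex.sub_re, Complex.one_re] at hre
  have hx1 : 0 < 1 - ‖ζ‖ ^ 2 := by
    have := norm_nonneg ζ
    nlinarith
  have h3 : (1 + ‖ζ‖ ^ 2) / (1 - ‖ζ‖ ^ 2) = 1 + 2 * ‖ζ‖ ^ 2 / (1 - ‖ζ‖ ^ 2) := by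
    field_simp
    ring
  rw [h3] at hre
  linarith

end Pool.Agent.H121R3.Bom
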