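import Pool.Agent.H33R3.Bom.Stmts

/-! TASK H2 of the project H33-BOM: lower bound for `Y` from the bound of its logarithmic derivative. -/

set_option autoImplicit false

namespace Pool.Agent.H121R3.Bom

open Complex Metric Set Filter Topology Pool.Agent.H33R3.Bom

theorem taskH2 : TaskH2 := by
  intro hH Y hY z hz
  have hr : ‖z‖ < 1 := by simpa using hz
  set r : ℝ := ‖z‖ with hrdef
  have hr0 : 0 ≤ r := norm_nonneg z
  -- points of the radius
  have hmem : ∀ t : ℝ, t ∈ Icc (0 : ℝ) 1 → (t : ℂ) * z ∈ ball (0 : ℂ) 1 := by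
    intro t ht
    have : ‖(t : ℂ) * z‖ < 1 := by
      rw [norm_mul, Complex.norm_real, Real.norm_of_nonneg ht.1]
      calc t * ‖z‖ ≤ 1 * ‖z‖ := mul_le_mul_of_nonneg_right ht.2 (norm_nonneg _)
        _ < 1 := by simpa using hr
    simpa using this
  have hden : ∀ t : ℝ, t ∈ Icc (0 : ℝ) 1 → 0 < 1 - t ^ 2 * r ^ 2 := by
    intro t ht
    have h1 : t ^ 2 ≤ 1 := by nlinarith [ht.1, ht.2]
    have h2 : r ^ 2 < 1 := by nlinarith
    nlinarith [sq_nonneg t, sq_nonneg r]
  have hdY : ∀ t : ℝ, t ∈ Icc (0 : ℝ) 1 →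
      HasDerivAt (fun s : ℝ => Y ((s : ℂ) * z)) (deriv Y ((t : ℂ) * z) * z) t := by
    intro t ht
    have h1 : HasDerivAt Y (deriv Y ((t : ℂ) * z)) ((t : ℂ) * z) :=
      (hY.diff.differentiableAt (isOpen_ball.mem_nhds (hmem t ht))).hasDerivAt
    have h2 : HasDerivAt (fun s : ℂ => s * z) z ((t : ℝ) : ℂ) := by
      simpa using (hasDerivAt_id ((t : ℝ) : ℂ)).mul_const z
    have h3 : HasDerivAt (fun s : ℂ => Y (s * z)) (deriv Y ((t : ℂ) * z) * z) ((t : ℝ) : ℂ) :=
      HasDerivAt.comp (((t : ℝ) : ℂ)) h1 h2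
    exact h3.comp_ofReal
  set g : ℝ → ℝ := fun t => Real.log (‖Y ((t : ℂ) * z)‖ ^ 2) - 2 * Real.log (1 - t ^ 2 * r ^ 2)
    with hg
  have hdg : ∀ t : ℝ, t ∈ Icc (0 : ℝ) 1 → HasDerivAt g
      (2 * ((z * deriv Y ((t : ℂ) * z) / Y ((t : ℂ) * z)).re) +
        4 * (t * r ^ 2) / (1 - t ^ 2 * r ^ 2)) t := by
    intro t ht
    have hne : Y ((t : ℂ) * z) ≠ 0 := hY.ne _ (hmem t ht)
    have h1 := (hdY t ht).norm_sq
    have hpos : (0 : ℝ) < ‖Y ((t : ℂ) * z)‖ ^ 2 := by positivity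
    have h2 := h1.log hpos.ne'
    have h3 : HasDerivAt (fun t : ℝ => 1 - t ^ 2 * r ^ 2) (-(2 * t * r ^ 2)) t := by
      have := ((hasDerivAt_pow 2 t).mul_const (r ^ 2)).const_sub 1
      simpa using this
    have h4 := (h3.log (hden t ht).ne').const_mul 2
    have h5 := h2.sub h4
    refine h5.congr_deriv ?_
    have h6 : (2 * inner ℝ (Y ((t : ℂ) * z)) (deriv Y ((t : ℂ) * z) * z)) / ‖Y ((t : ℂ) * z)‖ ^ 2
        = 2 * ((z * deriv Y ((t : ℂ) * z) / Y ((t : ℂ) * z)).re) := by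
      rw [mul_div_assoc]
      congr 1
      rw [Complex.inner, Complex.div_re, Complex.sq_norm]
      simp only [Complex.mul_re, Complex.conj_re, Complex.conj_im, Complex.mul_im]
      have hn : Complex.normSq (Y ((t : ℂ) * z)) ≠ 0 := by
        simpa [Complex.normSq_eq_zero] using hne
      field_simp
      ring
    rw [h6]
    have := (hden t ht).ne'
    field_simp
    ring
  have hcont : ContinuousOn g (Icc 0 1) := fun t ht => (hdg t ht).continuousAt.continuousWithinAt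
  have hmono : MonotoneOn g (Icc 0 1) := by
    apply monotoneOn_of_deriv_nonneg (convex_Icc 0 1) hcont
    · intro t ht
      rw [interior_Icc] at ht
      exact (hdg t ⟨ht.1.le, ht.2.le⟩).differentiableAt.differentiableWithinAt
    · intro t ht
      rw [interior_Icc] at ht
      have ht' : t ∈ Icc (0 : ℝ) 1 := ⟨ht.1.le, ht.2.le⟩
      rw [(hdg t ht').deriv]
      have h1 := hH Y hY _ (hmem t ht')
      have h2 : ‖(t : ℂ) * z‖ ^ 2 = t ^ 2 * r ^ 2 := by
        rw [norm_mul, Complex.norm_real, mul_pow, Real.norm_eq_abs, sq_abs]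
      rw [h2] at h1
      have h3 : ((t : ℂ) * z * deriv Y ((t : ℂ) * z) / Y ((t : ℂ) * z)).re =
          t * (z * deriv Y ((t : ℂ) * z) / Y ((t : ℂ) * z)).re := by
        rw [mul_assoc, mul_div_assoc, Complex.re_ofReal_mul]
      rw [h3] at h1
      have hd := hden t ht'
      have h4 : 0 ≤ t * (2 * ((z * deriv Y ((t : ℂ) * z) / Y ((t : ℂ) * z)).re) +
          4 * (t * r ^ 2) / (1 - t ^ 2 * r ^ 2)) := by
        have h5 : t * (4 * (t * r ^ 2) / (1 - t ^ 2 * r ^ 2)) =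
            2 * (2 * (t ^ 2 * r ^ 2) / (1 - t ^ 2 * r ^ 2)) := by ring
        rw [mul_add, h5]
        nlinarith [h1]
      exact nonneg_of_mul_nonneg_right h4 ht.1
  have h01 := hmono (left_mem_Icc.2 zero_le_one) (right_mem_Icc.2 zero_le_one) zero_le_one
  simp only [hg] at h01
  have hrsq : 0 < 1 - r ^ 2 := by simpa using hden 1 (right_mem_Icc.2 zero_le_one)
  simp only [Complex.ofReal_zero, zero_mul, hY.one, norm_one, one_pow, Real.log_one,
    Complex.ofReal_one, one_mul, sub_zero, mul_zero, ne_eq, OfNat.ofNat_ne_zero,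
    not_false_eq_true, zero_pow] at h01
  have hne : Y z ≠ 0 := hY.ne z hz
  have hpos : 0 < ‖Y z‖ := norm_pos_iff.2 hne
  rw [Real.log_pow] at h01
  have h02 : Real.log (1 - r ^ 2) ≤ Real.log ‖Y z‖ := by
    push_cast at h01
    linarith
  exact (Real.log_le_log_iff hrsq hpos).1 h02

end Pool.Agent.H121R3.Bom
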